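import Pool.Agent.TH486.LC.Main

/-!
For every `t ≥ 4` the 3-uniform linear cycle of length `t` is perfect, and the complete 3-graph on
`2 t - 1` vertices is the only reason for equality.
-/

set_option autoImplicit false

namespace Pool.Agent.Results.MP_6d1569_co.LinearCyclePerfect

open Pool.Agent.TH486.LC

theorem result : ∀ t : ℕ, 4 ≤ t →
    (∀ (n : ℕ) (G : Finset (Finset (Fin n))), IsThreeGraph G → ¬ Contains (linCycle t) G →
      lagrangian G ≤ lagrangian (complete (2 * t - 1)) ∧
      (lagrangian G = lagrangian (complete (2 * t - 1)) → Contains (complete (2 * t - 1)) G)) ∧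
    lagrangianDensity (linCycle t) = 6 * lagrangian (complete (2 * t - 1)) :=
  fun t ht => main_statement t ht

end Pool.Agent.Results.MP_6d1569_co.LinearCyclePerfect
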